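import Mathlib
import Pool.Agent.Lib.MP_eb6644_gt.Final

set_option autoImplicit false

/-!
# MP_eb6644_gt: points of uncountable character in ordered images of Valdivia compacta

A linearly ordered compact space which is an image of a Valdivia compactum has at most `ℵ₁` points of uncountable
character.
-/

open Topology

namespace Pool.Agent.Results.MP_eb6644_gt.OrderedImages

/-- `Σ(Γ)`: the points of `ℝ^Γ` with countable support -/
def Sigma (Γ : Type) : Set (Γ → ℝ) := {x | {γ | x γ ≠ 0}.Countable}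

/-- `A` is a `Σ`-subset of `K`: for some set `Γ` some homeomorphic embedding `h : K → ℝ^Γ` has `A = h⁻¹(Σ(Γ))` -/
def IsSigmaSubset {K : Type} [TopologicalSpace K] (A : Set K) : Prop :=
  ∃ (Γ : Type) (h : K → Γ → ℝ), IsEmbedding h ∧ A = h ⁻¹' Sigma Γ

/-- `K` is a Valdivia compactum: a compact Hausdorff space some `Σ`-subset of which is dense -/
def IsValdivia (K : Type) [TopologicalSpace K] : Prop :=
  CompactSpace K ∧ T2Space K ∧ ∃ A : Set K, IsSigmaSubset A ∧ Dense A

/-- `K` is linearly ordered: its topology is the order topology of some linear order on `K` -/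
def IsLinearlyOrdered (K : Type) [TopologicalSpace K] : Prop := ∃ _ : LinearOrder K, OrderTopology K

/-- `K` is an image of a Valdivia compactum: some Valdivia compactum `L` admits a continuous surjection `L → K` -/
def IsValdiviaImage (K : Type) [TopologicalSpace K] : Prop :=
  ∃ (L : Type) (_ : TopologicalSpace L), IsValdivia L ∧ ∃ f : L → K, Continuous f ∧ Function.Surjective f

/-- `B` is a neighbourhood base of `K` at `x` -/
def IsNhdsBase {K : Type} [TopologicalSpace K] (x : K) (B : Set (Set K)) : Prop :=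
  (∀ U ∈ B, U ∈ 𝓝 x) ∧ ∀ V ∈ 𝓝 x, ∃ U ∈ B, U ⊆ V

/-- the character `χ(x, K)`: the least cardinality of a neighbourhood base at `x` -/
noncomputable def character {K : Type} [TopologicalSpace K] (x : K) : Cardinal :=
  sInf {κ | ∃ B : Set (Set K), IsNhdsBase x B ∧ Cardinal.mk B = κ}

theorem not_countablyGenerated {K : Type} [TopologicalSpace K] {x : K} (h : Cardinal.aleph0 < character x) :
    ¬ (𝓝 x).IsCountablyGenerated := by
  intro hc
  obtain ⟨u, hu⟩ := (𝓝 x).exists_antitone_basis
  have hB : IsNhdsBase x (Set.range u) := by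
    constructor
    · rintro U ⟨n, rfl⟩
      exact hu.1.mem_of_mem trivial
    · intro V hV
      obtain ⟨n, -, hn⟩ := hu.1.mem_iff.1 hV
      exact ⟨u n, ⟨n, rfl⟩, hn⟩
  have h1 : character x ≤ Cardinal.mk (Set.range u) := csInf_le' ⟨_, hB, rfl⟩
  have h2 : Cardinal.mk (Set.range u) ≤ Cardinal.aleph0 :=
    Cardinal.mk_le_aleph0_iff.2 (Set.countable_range u).to_subtype
  exact absurd (h.trans_le (h1.trans h2)) (lt_irrefl _)

/-- Let `K` be a linearly ordered compact space which is an image of a Valdivia compactum.  Then the set of the `x ∈ K`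
with `χ(x, K) > ℵ₀` has cardinality at most `ℵ₁`. -/
theorem result (K : Type) [TopologicalSpace K] [CompactSpace K] [T2Space K] (hord : IsLinearlyOrdered K)
    (himg : IsValdiviaImage K) : Cardinal.mk {x : K | Cardinal.aleph0 < character x} ≤ Cardinal.aleph 1 := by
  classical
  obtain ⟨iLO, iOT⟩ := hord
  obtain ⟨L, iL, ⟨hLc, hL2, A, ⟨Γ, h, hh, rfl⟩, hA⟩, f, hf, hfs⟩ := himg
  have hle : Cardinal.mk {x : K | Cardinal.aleph0 < character x} ≤
      Cardinal.mk {x : K | ¬ (𝓝 x).IsCountablyGenerated} :=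
    Cardinal.mk_le_mk_of_subset fun x hx => not_countablyGenerated hx
  refine hle.trans ?_
  by_cases hK : Nonempty K
  swap
  · have : IsEmpty K := not_nonempty_iff.1 hK
    have h0 : Cardinal.mk {x : K | ¬ (𝓝 x).IsCountablyGenerated} = 0 := by
      rw [Cardinal.mk_eq_zero_iff]
      infer_instance
    rw [h0]
    exact zero_le
  obtain ⟨k₀⟩ := hK
  set S : Set (Γ → ℝ) := Set.range h with hS
  have hSc : IsCompact S := isCompact_range hh.continuous
  let e : L ≃ₜ S := hh.toHomeomorph
  let g : (Γ → ℝ) → K := fun x => if hx : x ∈ S then f (e.symm ⟨x, hx⟩) else k₀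
  have hgf : ∀ x (hx : x ∈ S), g x = f (e.symm ⟨x, hx⟩) := fun x hx => by simp [g, hx]
  have hg : ContinuousOn g S := by
    rw [continuousOn_iff_continuous_domRestrict]
    convert hf.comp e.symm.continuous using 1
    funext x
    exact hgf x.1 x.2
  have hd : S ⊆ closure (S ∩ {x | (Function.support x).Countable}) := by
    rintro _ ⟨y, rfl⟩
    have h1 : h y ∈ closure (h '' (h ⁻¹' Sigma Γ)) :=
      image_closure_subset_closure_image hh.continuous ⟨y, hA y, rfl⟩
    refine closure_mono ?_ h1
    rintro _ ⟨z, hz, rfl⟩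
    exact ⟨⟨z, rfl⟩, hz⟩
  refine Pool.Agent.Lib.MP_eb6644_gt.main_theorem hSc hg (fun q => ?_) hd
  obtain ⟨y, rfl⟩ := hfs q
  refine ⟨h y, ⟨y, rfl⟩, ?_⟩
  rw [hgf (h y) ⟨y, rfl⟩]
  congr 1
  rw [Homeomorph.symm_apply_eq]
  rfl

end Pool.Agent.Results.MP_eb6644_gt.OrderedImages
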